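import Mathlib

namespace Pool.Agent.Helper74.LM

open LaurentPolynomial Matrix

/-- The subgroup `E_2(R)` of `SL_2(R)` generated by the elementary matrices. -/
def E2 (R : Type*) [CommRing R] : Subgroup (SpecialLinearGroup (Fin 2) R) :=
  Subgroup.closure {g | ∃ r : R, (g : Matrix (Fin 2) (Fin 2) R) = !![1, r; 0, 1] ∨
    (g : Matrix (Fin 2) (Fin 2) R) = !![1, 0; r, 1]}

/-- All coefficients of `f` in degrees above `n` vanish and the coefficient in degree `n` is `a`. -/
def Lead {A : Type*} [CommRing A] (f : A[T;T⁻¹]) (n : ℤ) (a : A) : Prop :=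
  (∀ m, n < m → f.coeff m = 0) ∧ f.coeff n = a

/-- All entries of `M` have degree at most `n` and the matrix of coefficients in degree `n`
is `L`. -/
def MLead {A : Type*} [CommRing A] (M : Matrix (Fin 2) (Fin 2) A[T;T⁻¹]) (n : ℤ)
    (L : Matrix (Fin 2) (Fin 2) A) : Prop :=
  ∀ i j, Lead (M i j) n (L i j)

section lead

variable {A : Type*} [CommRing A]

theorem Lead.mul {f g : A[T;T⁻¹]} {n m : ℤ} {a b : A} (hf : Lead f n a) (hg : Lead g m b) :
    Lead (f * g) (n + m) (a * b) := by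
  have key : ∀ k : ℤ, (f * g).coeff k =
      f.coeff.sum fun i x => g.coeff.sum fun j y => if i + j = k then x * y else 0 := by
    intro k
    rw [AddMonoidAlgebra.coeff_mul]
  constructor
  · intro k hk
    rw [key]
    apply Finset.sum_eq_zero
    intro i hi
    apply Finset.sum_eq_zero
    intro j hj
    have hi' : i ≤ n := by
      by_contra h
      exact (Finsupp.mem_support_iff.mp hi) (hf.1 i (not_le.mp h))
    have hj' : j ≤ m := by
      by_contra h
      exact (Finsupp.mem_support_iff.mp hj) (hg.1 j (not_le.mp h))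
    have : i + j ≠ k := by omega
    simp [this]
  · rw [key, Finsupp.sum, Finset.sum_eq_single n]
    · rw [Finsupp.sum, Finset.sum_eq_single m]
      · simp [hf.2, hg.2]
      · intro j _ hj
        have : n + j ≠ n + m := by omega
        simp [this]
      · intro h
        simp [Finsupp.notMem_support_iff.mp h]
    · intro i hi hne
      apply Finset.sum_eq_zero
      intro j hj
      have hi' : i ≤ n := by
        by_contra h
        exact (Finsupp.mem_support_iff.mp hi) (hf.1 i (not_le.mp h))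
      have hj' : j ≤ m := by
        by_contra h
        exact (Finsupp.mem_support_iff.mp hj) (hg.1 j (not_le.mp h))
      have : i + j ≠ n + m := by omega
      simp [this]
    · intro h
      apply Finset.sum_eq_zero
      intro j _
      simp [Finsupp.notMem_support_iff.mp h]

theorem Lead.add {f g : A[T;T⁻¹]} {n : ℤ} {a b : A} (hf : Lead f n a) (hg : Lead g n b) :
    Lead (f + g) n (a + b) := by
  constructor
  · intro m hm
    rw [AddMonoidAlgebra.coeff_add, Finsupp.add_apply, hf.1 m hm, hg.1 m hm, add_zero]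
  · rw [AddMonoidAlgebra.coeff_add, Finsupp.add_apply, hf.2, hg.2]

theorem Lead.neg {f : A[T;T⁻¹]} {n : ℤ} {a : A} (hf : Lead f n a) : Lead (-f) n (-a) := by
  constructor
  · intro m hm
    rw [AddMonoidAlgebra.coeff_neg, Finsupp.neg_apply, hf.1 m hm, neg_zero]
  · rw [AddMonoidAlgebra.coeff_neg, Finsupp.neg_apply, hf.2]

theorem lead_zero (n : ℤ) : Lead (0 : A[T;T⁻¹]) n 0 := by
  constructor <;> simp

theorem lead_C (a : A) : Lead (C a : A[T;T⁻¹]) 0 a := by
  constructor
  · intro m hm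
    rw [C_apply, if_neg (by omega)]
  · simp

theorem lead_T (n : ℤ) : Lead (T n : A[T;T⁻¹]) n 1 := by
  constructor
  · intro m hm
    rw [T_apply, if_neg (by omega)]
  · simp

theorem lead_one : Lead (1 : A[T;T⁻¹]) 0 1 := by
  have := lead_C (1 : A)
  rwa [map_one] at this

theorem Lead.up {f : A[T;T⁻¹]} {n : ℤ} {a : A} (hf : Lead f n a) {m : ℤ} (h : n < m) :
    Lead f m 0 := ⟨fun k hk => hf.1 k (by omega), hf.1 m h⟩

theorem Lead.unique {f : A[T;T⁻¹]} {n m : ℤ} {a b : A} (hf : Lead f n a) (hg : Lead f m b)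
    (ha : a ≠ 0) (hb : b ≠ 0) : n = m ∧ a = b := by
  rcases lt_trichotomy n m with h | h | h
  · exact absurd (hg.2.symm.trans (hf.1 m h)) hb
  · subst h
    exact ⟨rfl, hf.2.symm.trans hg.2⟩
  · exact absurd (hf.2.symm.trans (hg.1 n h)) ha

theorem MLead.mul {M N : Matrix (Fin 2) (Fin 2) A[T;T⁻¹]} {n m : ℤ}
    {K L : Matrix (Fin 2) (Fin 2) A} (hM : MLead M n K) (hN : MLead N m L) :
    MLead (M * N) (n + m) (K * L) := by
  intro i j
  rw [Matrix.mul_apply, Matrix.mul_apply, Fin.sum_univ_two, Fin.sum_univ_two]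
  exact ((hM i 0).mul (hN 0 j)).add ((hM i 1).mul (hN 1 j))

theorem MLead.unique {M : Matrix (Fin 2) (Fin 2) A[T;T⁻¹]} {n m : ℤ}
    {K L : Matrix (Fin 2) (Fin 2) A} (hM : MLead M n K) (hN : MLead M m L) (hK : K ≠ 0)
    (hL : L ≠ 0) : n = m ∧ K = L := by
  have : n = m := by
    rcases lt_trichotomy n m with h | h | h
    · exfalso
      apply hL
      ext i j
      exact (hN i j).2.symm.trans ((hM i j).1 m h)
    · exact h
    · exfalso
      apply hK
      ext i j
      exact (hM i j).2.symm.trans ((hN i j).1 n h)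
  subst this
  refine ⟨rfl, ?_⟩
  ext i j
  exact (hM i j).2.symm.trans (hN i j).2

theorem mlead_mk {a b c d : A[T;T⁻¹]} {n : ℤ} {a' b' c' d' : A} (ha : Lead a n a')
    (hb : Lead b n b') (hc : Lead c n c') (hd : Lead d n d') :
    MLead !![a, b; c, d] n !![a', b'; c', d'] := by
  intro i j
  fin_cases i <;> fin_cases j <;> simpa

end lead

section elem

variable {R : Type*} [CommRing R]

/-- `1 b; 0 1` -/
def up (b : R) : SpecialLinearGroup (Fin 2) R := ⟨!![1, b; 0, 1], by simp⟩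

/-- `1 0; b 1` -/
def lo (b : R) : SpecialLinearGroup (Fin 2) R := ⟨!![1, 0; b, 1], by simp⟩

/-- `0 1; -1 0` -/
def wy : SpecialLinearGroup (Fin 2) R := ⟨!![0, 1; -1, 0], by simp⟩

/-- `u 0; 0 v` -/
def dg (u v : R) (h : u * v = 1) : SpecialLinearGroup (Fin 2) R := ⟨!![u, 0; 0, v], by simp [h]⟩

theorem up_mem (b : R) : up b ∈ E2 R := Subgroup.subset_closure ⟨b, Or.inl rfl⟩

theorem lo_mem (b : R) : lo b ∈ E2 R := Subgroup.subset_closure ⟨b, Or.inr rfl⟩

theorem up_mul (a b : R) : up a * up b = up (a + b) := by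
  apply Subtype.ext
  show !![1, a; 0, 1] * !![1, b; 0, 1] = !![1, a + b; 0, 1]
  simp [add_comm]

theorem up_inv (a : R) : (up a)⁻¹ = up (-a) := by
  rw [inv_eq_iff_mul_eq_one, up_mul]
  apply Subtype.ext
  show !![1, a + -a; 0, 1] = 1
  simp [Matrix.one_fin_two]

theorem dg_eq (u v : R) (h : u * v = 1) :
    dg u v h = up u * lo (-v) * up u * up (-1) * lo 1 * up (-1) := by
  apply Subtype.ext
  show !![u, 0; 0, v] = !![1, u; 0, 1] * !![1, 0; -v, 1] * !![1, u; 0, 1] * !![1, -1; 0, 1] *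
    !![1, 0; 1, 1] * !![1, -1; 0, 1]
  have h' : v * u = 1 := by rw [mul_comm]; exact h
  ext i j
  fin_cases i <;> fin_cases j <;> simp [h, h']

theorem dg_mem (u v : R) (h : u * v = 1) : dg u v h ∈ E2 R := by
  rw [dg_eq]
  exact mul_mem (mul_mem (mul_mem (mul_mem (mul_mem (up_mem _) (lo_mem _)) (up_mem _)) (up_mem _))
    (lo_mem _)) (up_mem _)

theorem wy_eq : (wy : SpecialLinearGroup (Fin 2) R) = up 1 * lo (-1) * up 1 := by
  apply Subtype.ext
  show !![0, 1; -1, 0] = !![1, 1; 0, 1] * !![1, 0; -1, 1] * !![1, 1; 0, 1]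
  ext i j
  fin_cases i <;> fin_cases j <;> simp

theorem wy_mem : (wy : SpecialLinearGroup (Fin 2) R) ∈ E2 R := by
  rw [wy_eq]
  exact mul_mem (mul_mem (up_mem _) (lo_mem _)) (up_mem _)

theorem tri_mem (g : SpecialLinearGroup (Fin 2) R) (h : g 1 0 = 0) : g ∈ E2 R := by
  have hd : g 0 0 * g 1 1 = 1 := by
    have := g.det_coe
    rw [Matrix.det_fin_two] at this
    rw [show (g : Matrix (Fin 2) (Fin 2) R) 1 0 = 0 from h, mul_zero, sub_zero] at this
    exact this
  have : g = up (g 0 1 * g 0 0) * dg (g 0 0) (g 1 1) hd := by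
    apply Subtype.ext
    show (g : Matrix (Fin 2) (Fin 2) R) = !![1, g 0 1 * g 0 0; 0, 1] * !![g 0 0, 0; 0, g 1 1]
    rw [Matrix.mul_fin_two]
    have h2 : g 0 1 * g 0 0 * g 1 1 = g 0 1 := by rw [mul_assoc, hd, mul_one]
    ext i j
    fin_cases i <;> fin_cases j <;> simp [h, h2]
  rw [this]
  exact mul_mem (up_mem _) (dg_mem _ _ _)

theorem tri_mem' (g : SpecialLinearGroup (Fin 2) R) (h : g 0 1 = 0) : g ∈ E2 R := by
  have hd : g 0 0 * g 1 1 = 1 := by
    have := g.det_coe
    rw [Matrix.det_fin_two] at this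
    rw [show (g : Matrix (Fin 2) (Fin 2) R) 0 1 = 0 from h, zero_mul, sub_zero] at this
    exact this
  have : g = lo (g 1 0 * g 1 1) * dg (g 0 0) (g 1 1) hd := by
    apply Subtype.ext
    show (g : Matrix (Fin 2) (Fin 2) R) = !![1, 0; g 1 0 * g 1 1, 1] * !![g 0 0, 0; 0, g 1 1]
    rw [Matrix.mul_fin_two]
    have h2 : g 1 0 * g 1 1 * g 0 0 = g 1 0 := by rw [mul_assoc, mul_comm (g 1 1), hd, mul_one]
    ext i j
    fin_cases i <;> fin_cases j <;> simp [h, h2]
  rw [this]
  exact mul_mem (lo_mem _) (dg_mem _ _ _)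

/-- Conjugation by `diag(x,1)`, where `y` is the inverse of `x`. -/
def dc (x y : R) (h : x * y = 1) :
    SpecialLinearGroup (Fin 2) R →* SpecialLinearGroup (Fin 2) R where
  toFun g := ⟨!![g 0 0, x * g 0 1; y * g 1 0, g 1 1], by
    have := g.det_coe
    rw [Matrix.det_fin_two] at this
    rw [Matrix.det_fin_two_of]
    linear_combination this - (g 0 1 * g 1 0) * h⟩
  map_one' := by
    apply Subtype.ext
    show !![(1 : SpecialLinearGroup (Fin 2) R) 0 0, x * (1 : SpecialLinearGroup (Fin 2) R) 0 1;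
      y * (1 : SpecialLinearGroup (Fin 2) R) 1 0, (1 : SpecialLinearGroup (Fin 2) R) 1 1] = 1
    simp [Matrix.one_fin_two]
  map_mul' a b := by
    apply Subtype.ext
    show !![(a * b) 0 0, x * (a * b) 0 1; y * (a * b) 1 0, (a * b) 1 1] =
      !![a 0 0, x * a 0 1; y * a 1 0, a 1 1] * !![b 0 0, x * b 0 1; y * b 1 0, b 1 1]
    have hm : ∀ i j, (a * b) i j = a i 0 * b 0 j + a i 1 * b 1 j := by
      intro i j
      show (a.1 * b.1) i j = _
      rw [Matrix.mul_apply, Fin.sum_univ_two]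
    rw [Matrix.mul_fin_two, hm, hm, hm, hm]
    ext i j
    fin_cases i <;> fin_cases j
    · show a 0 0 * b 0 0 + a 0 1 * b 1 0 = a 0 0 * b 0 0 + x * a 0 1 * (y * b 1 0)
      linear_combination (-(a 0 1 * b 1 0)) * h
    · show x * (a 0 0 * b 0 1 + a 0 1 * b 1 1) = a 0 0 * (x * b 0 1) + x * a 0 1 * b 1 1
      ring
    · show y * (a 1 0 * b 0 0 + a 1 1 * b 1 0) = y * a 1 0 * b 0 0 + a 1 1 * (y * b 1 0)
      ring
    · show a 1 0 * b 0 1 + a 1 1 * b 1 1 = y * a 1 0 * (x * b 0 1) + a 1 1 * b 1 1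
      linear_combination (-(a 1 0 * b 0 1)) * h

theorem dc_coe (x y : R) (h : x * y = 1) (g : SpecialLinearGroup (Fin 2) R) :
    ((dc x y h g : SpecialLinearGroup (Fin 2) R) : Matrix (Fin 2) (Fin 2) R) =
      !![g 0 0, x * g 0 1; y * g 1 0, g 1 1] := rfl

end elem

end Pool.Agent.Helper74.LM
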