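import Mathlib
import Pool.Agent.Helper74.LM.Basic

namespace Pool.Agent.Helper74.LM

open LaurentPolynomial Matrix

variable {A : Type*} [CommRing A]

theorem det_eq {R : Type*} [CommRing R] (g : SpecialLinearGroup (Fin 2) R) :
    g 0 0 * g 1 1 - g 0 1 * g 1 0 = 1 := by
  have := g.det_coe
  rwa [Matrix.det_fin_two] at this

/-- The subgroup of matrices in `SL_2(A[T⁻¹])` whose constant matrix lies in `E_2(A)`. -/
def PP (A : Type*) [CommRing A] : Subgroup (SpecialLinearGroup (Fin 2) A[T;T⁻¹]) where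
  carrier := {g | ∃ e ∈ E2 A, MLead (g : Matrix (Fin 2) (Fin 2) A[T;T⁻¹]) 0
    (e : Matrix (Fin 2) (Fin 2) A)}
  one_mem' := by
    refine ⟨1, one_mem _, ?_⟩
    show MLead (1 : Matrix (Fin 2) (Fin 2) A[T;T⁻¹]) 0 (1 : Matrix (Fin 2) (Fin 2) A)
    rw [Matrix.one_fin_two, Matrix.one_fin_two]
    exact mlead_mk lead_one (lead_zero 0) (lead_zero 0) lead_one
  mul_mem' := by
    rintro a b ⟨e, he, hM⟩ ⟨e', he', hM'⟩
    refine ⟨e * e', mul_mem he he', ?_⟩
    have := hM.mul hM'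
    rw [add_zero] at this
    exact this
  inv_mem' := by
    rintro a ⟨e, he, hM⟩
    refine ⟨e⁻¹, inv_mem he, ?_⟩
    show MLead (Matrix.adjugate (a : Matrix (Fin 2) (Fin 2) A[T;T⁻¹])) 0
      (Matrix.adjugate (e : Matrix (Fin 2) (Fin 2) A))
    rw [Matrix.adjugate_fin_two, Matrix.adjugate_fin_two]
    exact mlead_mk (hM 1 1) (hM 0 1).neg (hM 1 0).neg (hM 0 0)

theorem TT' : (T (-1) : A[T;T⁻¹]) * T 1 = 1 := by
  rw [← T_add]
  simp

theorem TT : (T 1 : A[T;T⁻¹]) * T (-1) = 1 := by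
  rw [← T_add]
  simp

/-- `diag(T,1) PP diag(T,1)⁻¹`. -/
noncomputable def PQ (A : Type*) [CommRing A] : Subgroup (SpecialLinearGroup (Fin 2) A[T;T⁻¹]) :=
  (PP A).comap (dc (T (-1)) (T 1) TT')

theorem mem_PQ {g : SpecialLinearGroup (Fin 2) A[T;T⁻¹]} : g ∈ PQ A ↔ ∃ e ∈ E2 A,
    MLead !![g 0 0, T (-1) * g 0 1; T 1 * g 1 0, g 1 1] 0 (e : Matrix (Fin 2) (Fin 2) A) :=
  Iff.rfl

theorem Lead.T_mul {f : A[T;T⁻¹]} {n : ℤ} {a : A} (k : ℤ) (hf : Lead f n a) :
    Lead (T k * f) (k + n) a := by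
  have := (lead_T (A := A) k).mul hf
  rwa [one_mul] at this

theorem Lead.of_T_mul {f : A[T;T⁻¹]} {n : ℤ} {a : A} (k : ℤ) (hf : Lead (T k * f) n a) :
    Lead f (n - k) a := by
  have := hf.T_mul (-k)
  rw [← mul_assoc, ← T_add, neg_add_cancel, T_zero, one_mul] at this
  rwa [show n - k = -k + n by ring]

/-- An element of `PQ` outside `PP` has leading matrix `β E_12`, `β ≠ 0`. -/
theorem lead_of_PQ {q : SpecialLinearGroup (Fin 2) A[T;T⁻¹]} (hq : q ∈ PQ A) (hq' : q ∉ PP A) :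
    ∃ β : A, β ≠ 0 ∧ MLead (q : Matrix (Fin 2) (Fin 2) A[T;T⁻¹]) 1 !![0, β; 0, 0] := by
  obtain ⟨e, he, hM⟩ := mem_PQ.mp hq
  have h00 : Lead (q 0 0) 0 (e 0 0) := hM 0 0
  have h01 : Lead (q 0 1) 1 (e 0 1) := by
    have := Lead.of_T_mul (-1) (hM 0 1 : Lead (T (-1) * q 0 1) 0 (e 0 1))
    simpa using this
  have h10 : Lead (q 1 0) (-1) (e 1 0) := by
    have := Lead.of_T_mul 1 (hM 1 0 : Lead (T 1 * q 1 0) 0 (e 1 0))
    simpa using this
  have h11 : Lead (q 1 1) 0 (e 1 1) := hM 1 1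
  by_cases hβ : e 0 1 = 0
  · exfalso
    apply hq'
    have hd : e 0 0 * e 1 1 = 1 := by
      have := det_eq e
      rwa [hβ, zero_mul, sub_zero] at this
    let f : SpecialLinearGroup (Fin 2) A :=
      ⟨!![e 0 0, (q 0 1).coeff 0; 0, e 1 1], by
        rw [Matrix.det_fin_two_of]
        linear_combination hd⟩
    refine ⟨f, tri_mem f rfl, ?_⟩
    intro i j
    fin_cases i <;> fin_cases j
    · exact h00
    · refine ⟨fun m hm => ?_, rfl⟩
      rcases lt_or_eq_of_le (show (1 : ℤ) ≤ m by omega) with h | h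
      · exact h01.1 m h
      · rw [← h]
        exact h01.2.trans hβ
    · exact h10.up (by norm_num)
    · exact h11
  · refine ⟨e 0 1, hβ, ?_⟩
    intro i j
    fin_cases i <;> fin_cases j
    · exact h00.up (by norm_num)
    · exact h01
    · exact h10.up (by norm_num)
    · exact h11.up (by norm_num)

/-- An element of `PP` whose constant matrix is upper triangular lies in `PQ`. -/
theorem PQ_of_lead {p : SpecialLinearGroup (Fin 2) A[T;T⁻¹]} {e : SpecialLinearGroup (Fin 2) A}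
    (hM : MLead (p : Matrix (Fin 2) (Fin 2) A[T;T⁻¹]) 0 (e : Matrix (Fin 2) (Fin 2) A))
    (he : e 1 0 = 0) : p ∈ PQ A := by
  have hd : e 0 0 * e 1 1 = 1 := by
    have := det_eq e
    rwa [he, mul_zero, sub_zero] at this
  rw [mem_PQ]
  let f : SpecialLinearGroup (Fin 2) A :=
    ⟨!![e 0 0, 0; (p 1 0).coeff (-1), e 1 1], by
      rw [Matrix.det_fin_two_of]
      linear_combination hd⟩
  refine ⟨f, tri_mem' f rfl, ?_⟩
  intro i j
  fin_cases i <;> fin_cases j
  · exact hM 0 0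
  · show Lead (T (-1) * p 0 1) 0 0
    exact ((hM 0 1).T_mul (-1)).up (by norm_num)
  · show Lead (T 1 * p 1 0) 0 ((p 1 0).coeff (-1))
    have h : Lead (p 1 0) (-1) ((p 1 0).coeff (-1)) := by
      refine ⟨fun m hm => ?_, rfl⟩
      rcases lt_or_eq_of_le (show (0 : ℤ) ≤ m by omega) with h | h
      · exact (hM 1 0).1 m h
      · rw [← h]
        exact (hM 1 0).2.trans he
    have := h.T_mul 1
    simpa using this
  · exact hM 1 1

/-- Reduced products `p₁ q₁ ⋯ pₙ qₙ`. -/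
inductive Red : ℕ → SpecialLinearGroup (Fin 2) A[T;T⁻¹] → Prop
  | nil : Red 0 1
  | snoc {n : ℕ} {r : SpecialLinearGroup (Fin 2) A[T;T⁻¹]} (p q) : Red n r → p ∈ PP A →
      q ∈ PQ A → q ∉ PP A → (n = 0 ∨ p ∉ PQ A) → Red (n + 1) (r * p * q)

theorem Red.zero {r : SpecialLinearGroup (Fin 2) A[T;T⁻¹]} (h : Red 0 r) : r = 1 := by
  generalize hn : 0 = n at h
  cases h with
  | nil => rfl
  | snoc p q => omega

/-- Every element of the group generated by `PP` and `PQ` is a reduced product times an element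
of `PP`. -/
theorem exists_red {g : SpecialLinearGroup (Fin 2) A[T;T⁻¹]} (hg : g ∈ PP A ⊔ PQ A) :
    ∃ n r p, Red n r ∧ p ∈ PP A ∧ g = r * p := by
  rw [Subgroup.sup_eq_closure] at hg
  have step : ∀ g y : SpecialLinearGroup (Fin 2) A[T;T⁻¹], y ∈ (PP A : Set _) ∪ (PQ A : Set _) →
      (∃ n r p, Red n r ∧ p ∈ PP A ∧ g = r * p) →
      ∃ n r p, Red n r ∧ p ∈ PP A ∧ g * y = r * p := by
    rintro g y hy ⟨n, r, p, hr, hp, rfl⟩
    by_cases hyP : y ∈ PP A
    · exact ⟨n, r, p * y, hr, mul_mem hp hyP, mul_assoc _ _ _⟩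
    · have hyQ : y ∈ PQ A := hy.resolve_left hyP
      by_cases hc : n = 0 ∨ p ∉ PQ A
      · exact ⟨n + 1, r * p * y, 1, Red.snoc p y hr hp hyQ hyP hc, one_mem _, (mul_one _).symm⟩
      · push Not at hc
        obtain ⟨hn, hpQ⟩ := hc
        cases hr with
        | nil => exact absurd rfl hn
        | @snoc m r' p0 q0 hr' hp0 hq0 hq0' hm =>
          have hQ : q0 * p * y ∈ PQ A := mul_mem (mul_mem hq0 hpQ) hyQ
          by_cases hQP : q0 * p * y ∈ PP A
          · exact ⟨m, r', p0 * (q0 * p * y), hr', mul_mem hp0 hQP, by group⟩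
          · exact ⟨m + 1, r' * p0 * (q0 * p * y), 1, Red.snoc p0 _ hr' hp0 hQ hQP hm,
              one_mem _, by group⟩
  induction hg using Subgroup.closure_induction_right with
  | one => exact ⟨0, 1, 1, Red.nil, one_mem _, by simp⟩
  | mul_right x hx y hy ih => exact step x y hy ih
  | mul_inv_cancel x hx y hy ih =>
    refine step x y⁻¹ ?_ ih
    rcases hy with h | h
    · exact Or.inl ((PP A).inv_mem h)
    · exact Or.inr ((PQ A).inv_mem h)

theorem smul_calc [IsDomain A] (β γ : A) (e p : Matrix (Fin 2) (Fin 2) A) :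
    (γ • (e * !![0, 1; 0, 0])) * p * !![0, β; 0, 0] =
      (γ * p 1 0 * β) • (e * !![0, 1; 0, 0]) := by
  ext i j
  fin_cases i <;> fin_cases j <;>
    simp [Matrix.mul_apply, Fin.sum_univ_two] <;> ring

theorem red_lead [IsDomain A] {n : ℕ} {r : SpecialLinearGroup (Fin 2) A[T;T⁻¹]} (h : Red n r)
    (hn : 0 < n) : ∃ c : A, c ≠ 0 ∧ ∃ e ∈ E2 A,
      MLead (r : Matrix (Fin 2) (Fin 2) A[T;T⁻¹]) n
        (c • ((e : Matrix (Fin 2) (Fin 2) A) * !![0, 1; 0, 0])) := by
  induction h with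
  | nil => exact absurd hn (lt_irrefl 0)
  | @snoc m r p q hr hp hq hq' hm ih =>
    obtain ⟨β, hβ, hQ⟩ := lead_of_PQ hq hq'
    obtain ⟨ep, hep, hP⟩ := hp
    rcases Nat.eq_zero_or_pos m with h0 | h0
    · subst h0
      have := hr.zero
      subst this
      refine ⟨β, hβ, ep, hep, ?_⟩
      have h := hP.mul hQ
      intro i j
      have := h i j
      have e1 : (((1 : SpecialLinearGroup (Fin 2) A[T;T⁻¹]) * p * q :
          SpecialLinearGroup (Fin 2) A[T;T⁻¹]) : Matrix (Fin 2) (Fin 2) A[T;T⁻¹]) =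
          (p : Matrix (Fin 2) (Fin 2) A[T;T⁻¹]) * (q : Matrix (Fin 2) (Fin 2) A[T;T⁻¹]) := by
        rw [one_mul]
        rfl
      rw [e1]
      have e2 : (β • ((ep : Matrix (Fin 2) (Fin 2) A) * !![0, 1; 0, 0])) =
          (ep : Matrix (Fin 2) (Fin 2) A) * !![0, β; 0, 0] := by
        rw [← Matrix.mul_smul]
        congr 1
        ext i j
        fin_cases i <;> fin_cases j <;> simp
      rw [e2]
      simpa using this
    · obtain ⟨c, hc, e, he, hR⟩ := ih h0
      have hγ : ep 1 0 ≠ 0 := by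
        intro h
        have hp' : p ∈ PQ A := PQ_of_lead hP h
        rcases hm with h1 | h1
        · omega
        · exact h1 hp'
      refine ⟨c * ep 1 0 * β, mul_ne_zero (mul_ne_zero hc hγ) hβ, e, he, ?_⟩
      have h := (hR.mul hP).mul hQ
      rw [smul_calc] at h
      have e3 : ((m : ℤ) + 0 + 1) = ((m + 1 : ℕ) : ℤ) := by push_cast; ring
      rw [e3] at h
      exact h

end Pool.Agent.Helper74.LM
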