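import Mathlib
import Pool.Agent.Helper74.LM.Core

namespace Pool.Agent.Helper74.LM

open LaurentPolynomial Matrix

variable {A : Type*} [CommRing A]

theorem up_mem_PP {b : A[T;T⁻¹]} (h : ∀ m, 0 < m → b.coeff m = 0) : up b ∈ PP A := by
  refine ⟨up (b.coeff 0), up_mem _, ?_⟩
  exact mlead_mk lead_one ⟨h, rfl⟩ (lead_zero 0) lead_one

theorem up_mem_PQ {b : A[T;T⁻¹]} (h : ∀ m, 1 < m → b.coeff m = 0) : up b ∈ PQ A := by
  rw [mem_PQ]
  refine ⟨up (b.coeff 1), up_mem _, ?_⟩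
  show MLead !![1, T (-1) * b; T 1 * 0, 1] 0 !![1, b.coeff 1; 0, 1]
  have hb : Lead b 1 (b.coeff 1) := ⟨h, rfl⟩
  refine mlead_mk lead_one ?_ ?_ lead_one
  · have := hb.T_mul (-1)
    simpa using this
  · rw [mul_zero]
    exact lead_zero 0

theorem wy_mem_PP : (wy : SpecialLinearGroup (Fin 2) A[T;T⁻¹]) ∈ PP A := by
  refine ⟨wy, wy_mem, ?_⟩
  exact mlead_mk (lead_zero 0) lead_one lead_one.neg (lead_zero 0)

theorem wy'_coe {R : Type*} [CommRing R] (x y : R) (h : x * y = 1) :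
    dc x y h (wy : SpecialLinearGroup (Fin 2) R) = ⟨!![0, x; -y, 0], by
      rw [Matrix.det_fin_two_of]
      linear_combination h⟩ := by
  apply Subtype.ext
  show !![(0 : R), x * 1; y * (-1), 0] = !![0, x; -y, 0]
  rw [mul_one, mul_neg, mul_one]

theorem dg_eq' {R : Type*} [CommRing R] (x y : R) (h : x * y = 1) :
    dg x y h = dc x y h (wy : SpecialLinearGroup (Fin 2) R) * wy⁻¹ := by
  rw [eq_mul_inv_iff_mul_eq, wy'_coe]
  apply Subtype.ext
  show !![x, 0; 0, y] * !![0, 1; -1, 0] = !![0, x; -y, 0]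
  ext i j : 2
  fin_cases i <;> fin_cases j <;> simp

theorem dg_conj {R : Type*} [CommRing R] (x y b : R) (h : x * y = 1) :
    dg x y h * up b * (dg x y h)⁻¹ = up (x * x * b) := by
  rw [mul_inv_eq_iff_eq_mul]
  apply Subtype.ext
  show !![x, 0; 0, y] * !![1, b; 0, 1] = !![1, x * x * b; 0, 1] * !![x, 0; 0, y]
  have h' : x * x * b * y = x * b := by
    linear_combination (x * b) * h
  ext i j : 2
  fin_cases i <;> fin_cases j <;> simp [h']

theorem dc_dc {R : Type*} [CommRing R] (x y : R) (h : x * y = 1) (h' : y * x = 1)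
    (g : SpecialLinearGroup (Fin 2) R) : dc y x h' (dc x y h g) = g := by
  apply Subtype.ext
  show !![g 0 0, y * (x * g 0 1); x * (y * g 1 0), g 1 1] = (g : Matrix (Fin 2) (Fin 2) R)
  rw [← mul_assoc, ← mul_assoc, h, h', one_mul, one_mul]
  ext i j : 2
  fin_cases i <;> fin_cases j <;> rfl

theorem wy'_mem_PQ : dc (T 1) (T (-1)) TT (wy : SpecialLinearGroup (Fin 2) A[T;T⁻¹]) ∈ PQ A := by
  rw [PQ, Subgroup.mem_comap, dc_dc]
  exact wy_mem_PP

theorem t_mem : dg (T 1) (T (-1)) TT ∈ PP A ⊔ PQ A := by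
  rw [dg_eq']
  exact mul_mem ((le_sup_right : PQ A ≤ _) wy'_mem_PQ)
    (inv_mem ((le_sup_left : PP A ≤ _) wy_mem_PP))

theorem t_conj (b : A[T;T⁻¹]) :
    dg (T 1) (T (-1)) TT * up b * (dg (T 1) (T (-1)) TT)⁻¹ = up (T 2 * b) := by
  rw [dg_conj, ← T_add]
  norm_num

theorem up_mem_sup' (N : ℕ) : ∀ b : A[T;T⁻¹], (∀ m, 2 * (N : ℤ) < m → b.coeff m = 0) →
    up b ∈ PP A ⊔ PQ A := by
  induction N with
  | zero =>
    intro b hb
    exact (le_sup_left : PP A ≤ _) (up_mem_PP (by simpa using hb))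
  | succ N ih =>
    intro b hb
    have hL : Lead b (2 * ((N + 1 : ℕ) : ℤ)) (b.coeff (2 * ((N + 1 : ℕ) : ℤ))) := ⟨hb, rfl⟩
    have h1 := ih (T (-2) * b) (by
      intro m hm
      exact (hL.T_mul (-2)).1 m (by push_cast; omega))
    have h2 := t_conj (T (-2) * b)
    rw [← mul_assoc, ← T_add] at h2
    rw [show (2 : ℤ) + -2 = 0 by norm_num, T_zero, one_mul] at h2
    rw [← h2]
    exact mul_mem (mul_mem t_mem h1) (inv_mem t_mem)

theorem exists_bound (b : A[T;T⁻¹]) : ∃ N : ℕ, ∀ m, 2 * (N : ℤ) < m → b.coeff m = 0 := by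
  refine ⟨b.coeff.support.sup Int.natAbs, fun m hm => ?_⟩
  by_contra h
  have h1 : m.natAbs ≤ b.coeff.support.sup Int.natAbs :=
    Finset.le_sup (f := Int.natAbs) (Finsupp.mem_support_iff.mpr h)
  omega

theorem up_mem_sup (b : A[T;T⁻¹]) : up b ∈ PP A ⊔ PQ A := by
  obtain ⟨N, hN⟩ := exists_bound b
  exact up_mem_sup' N b hN

theorem lo_eq {R : Type*} [CommRing R] (b : R) : lo b = wy⁻¹ * up (-b) * wy := by
  rw [mul_assoc, eq_inv_mul_iff_mul_eq]
  apply Subtype.ext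
  show !![(0 : R), 1; -1, 0] * !![1, 0; b, 1] = !![1, -b; 0, 1] * !![0, 1; -1, 0]
  ext i j
  fin_cases i <;> fin_cases j <;> simp

theorem E2_le_sup : E2 A[T;T⁻¹] ≤ PP A ⊔ PQ A := by
  rw [E2, Subgroup.closure_le]
  rintro g ⟨r, h | h⟩
  · have : g = up r := Subtype.ext h
    rw [this]
    exact up_mem_sup r
  · have : g = lo r := Subtype.ext h
    rw [this, lo_eq]
    have hw := (le_sup_left : PP A ≤ PP A ⊔ PQ A) wy_mem_PP
    exact mul_mem (mul_mem (inv_mem hw) (up_mem_sup _)) hw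

/-- The leading matrix theorem. -/
theorem leading [IsDomain A] {g : SpecialLinearGroup (Fin 2) A[T;T⁻¹]} (hg : g ∈ E2 A[T;T⁻¹]) :
    (∃ e ∈ E2 A, MLead (g : Matrix (Fin 2) (Fin 2) A[T;T⁻¹]) 0 (e : Matrix (Fin 2) (Fin 2) A)) ∨
    ∃ n : ℕ, 0 < n ∧ ∃ c : A, c ≠ 0 ∧ ∃ e ∈ E2 A, ∃ e' ∈ E2 A,
      MLead (g : Matrix (Fin 2) (Fin 2) A[T;T⁻¹]) n
        (c • ((e : Matrix (Fin 2) (Fin 2) A) * !![0, 1; 0, 0] *
          (e' : Matrix (Fin 2) (Fin 2) A))) := by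
  obtain ⟨n, r, p, hr, hp, rfl⟩ := exists_red (E2_le_sup hg)
  obtain ⟨e', he', hP⟩ := hp
  rcases Nat.eq_zero_or_pos n with h0 | h0
  · left
    subst h0
    have := hr.zero
    subst this
    refine ⟨e', he', ?_⟩
    rw [one_mul]
    exact hP
  · right
    obtain ⟨c, hc, e, he, hR⟩ := red_lead hr h0
    refine ⟨n, h0, c, hc, e, he, e', he', ?_⟩
    have h := hR.mul hP
    rw [add_zero, Matrix.smul_mul] at h
    exact h

end Pool.Agent.Helper74.LM
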