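import Mathlib
import Pool.Agent.Helper74.LM.Gen

namespace Pool.Agent.Helper74.LM

open LaurentPolynomial Matrix

/-- The matrix unit `E_12`. -/
abbrev E12 (A : Type*) [CommRing A] : Matrix (Fin 2) (Fin 2) A := !![0, 1; 0, 0]

variable {A : Type*} [CommRing A]

theorem mul_apply2 {R : Type*} [CommRing R] (a b : SpecialLinearGroup (Fin 2) R) (i j : Fin 2) :
    (a * b) i j = a i 0 * b 0 j + a i 1 * b 1 j := by
  show (a.1 * b.1) i j = _
  rw [Matrix.mul_apply, Fin.sum_univ_two]

theorem row_ne [IsDomain A] (s : SpecialLinearGroup (Fin 2) A) :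
    ∃ j, s 1 j ≠ 0 := by
  by_contra h
  push Not at h
  have := det_eq s
  rw [h 0, h 1] at this
  simp at this

theorem mid_apply (c : A) (s s' : Matrix (Fin 2) (Fin 2) A) (i j : Fin 2) :
    (c • (s * E12 A * s')) i j = c * (s i 0 * s' 1 j) := by
  fin_cases i <;> fin_cases j <;> simp [Matrix.mul_apply, Fin.sum_univ_two]

theorem mid_ne [IsDomain A] {c : A} (hc : c ≠ 0) (s s' : SpecialLinearGroup (Fin 2) A) :
    c • ((s : Matrix (Fin 2) (Fin 2) A) * E12 A * (s' : Matrix (Fin 2) (Fin 2) A)) ≠ 0 := by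
  intro h
  obtain ⟨j, hj⟩ := row_ne s'
  have h0 : ∀ i, s i 0 = 0 := by
    intro i
    have := congrFun (congrFun h i) j
    rw [mid_apply, Matrix.zero_apply] at this
    rcases mul_eq_zero.mp this with h1 | h1
    · exact absurd h1 hc
    · rcases mul_eq_zero.mp h1 with h2 | h2
      · exact h2
      · exact absurd h2 hj
  have := det_eq s
  rw [h0 0, h0 1] at this
  simp at this

theorem dir [IsDomain A] {c c' : A} (hc : c ≠ 0) {s s' e e' : SpecialLinearGroup (Fin 2) A}
    (he : e ∈ E2 A)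
    (h : c • ((s : Matrix (Fin 2) (Fin 2) A) * E12 A * (s' : Matrix (Fin 2) (Fin 2) A)) =
      c' • ((e : Matrix (Fin 2) (Fin 2) A) * E12 A * (e' : Matrix (Fin 2) (Fin 2) A))) :
    s ∈ E2 A := by
  obtain ⟨j, hj⟩ := row_ne s'
  have h0 := congrFun (congrFun h 0) j
  have h1 := congrFun (congrFun h 1) j
  rw [mid_apply, mid_apply] at h0 h1
  have key : (e⁻¹ * s) 1 0 = 0 := by
    have e1 : (e⁻¹ * s) 1 0 = -(e 1 0) * s 0 0 + e 0 0 * s 1 0 := by
      rw [mul_apply2]
      have : ((e⁻¹ : SpecialLinearGroup (Fin 2) A) : Matrix (Fin 2) (Fin 2) A) =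
          Matrix.adjugate (e : Matrix (Fin 2) (Fin 2) A) := rfl
      rw [this, Matrix.adjugate_fin_two]
      rfl
    have e2 : c * s' 1 j * (e⁻¹ * s) 1 0 = 0 := by
      rw [e1]
      change c * (s 0 0 * s' 1 j) = c' * (e 0 0 * e' 1 j) at h0
      change c * (s 1 0 * s' 1 j) = c' * (e 1 0 * e' 1 j) at h1
      linear_combination (-(e 1 0)) * h0 + e 0 0 * h1
    rcases mul_eq_zero.mp e2 with h2 | h2
    · rcases mul_eq_zero.mp h2 with h3 | h3
      · exact absurd h3 hc
      · exact absurd h3 hj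
    · exact h2
  have := mul_mem he (tri_mem _ key)
  rwa [mul_inv_cancel_left] at this

/-- Uniqueness form of the leading matrix theorem in positive degree. -/
theorem leading_pos [IsDomain A] {g : SpecialLinearGroup (Fin 2) A[T;T⁻¹]}
    (hg : g ∈ E2 A[T;T⁻¹]) {n : ℤ} (hn : 0 < n) {L : Matrix (Fin 2) (Fin 2) A} (hL : L ≠ 0)
    (h : MLead (g : Matrix (Fin 2) (Fin 2) A[T;T⁻¹]) n L) :
    ∃ c : A, c ≠ 0 ∧ ∃ e ∈ E2 A, ∃ e' ∈ E2 A,
      L = c • ((e : Matrix (Fin 2) (Fin 2) A) * E12 A * (e' : Matrix (Fin 2) (Fin 2) A)) := by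
  rcases leading hg with ⟨e, he, hM⟩ | ⟨m, hm, c, hc, e, he, e', he', hM⟩
  · exfalso
    apply hL
    ext i j
    exact (h i j).2.symm.trans ((hM i j).1 n hn)
  · exact ⟨c, hc, e, he, e', he', (h.unique hM hL (mid_ne hc e e')).2⟩

theorem map_E2 {R S : Type*} [CommRing R] [CommRing S] (f : R →+* S)
    {g : SpecialLinearGroup (Fin 2) R} (hg : g ∈ E2 R) : SpecialLinearGroup.map f g ∈ E2 S := by
  have : E2 R ≤ (E2 S).comap (SpecialLinearGroup.map f) := by
    rw [E2, Subgroup.closure_le]
    rintro g ⟨r, h | h⟩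
    · have : g = up r := Subtype.ext h
      subst this
      have : SpecialLinearGroup.map f (up r) = up (f r) := by
        apply Subtype.ext
        ext i j
        fin_cases i <;> fin_cases j <;> simp [up]
      show SpecialLinearGroup.map f (up r) ∈ E2 S
      rw [this]
      exact up_mem _
    · have : g = lo r := Subtype.ext h
      subst this
      have : SpecialLinearGroup.map f (lo r) = lo (f r) := by
        apply Subtype.ext
        ext i j
        fin_cases i <;> fin_cases j <;> simp [lo]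
      show SpecialLinearGroup.map f (lo r) ∈ E2 S
      rw [this]
      exact lo_mem _
  exact this hg

theorem dc_E2 {R : Type*} [CommRing R] (x y : R) (h : x * y = 1)
    {g : SpecialLinearGroup (Fin 2) R} (hg : g ∈ E2 R) : dc x y h g ∈ E2 R := by
  have : E2 R ≤ (E2 R).comap (dc x y h) := by
    rw [E2, Subgroup.closure_le]
    rintro g ⟨r, h' | h'⟩
    · have : g = up r := Subtype.ext h'
      subst this
      have : dc x y h (up r) = up (x * r) := by
        apply Subtype.ext
        show !![(1 : R), x * r; y * 0, 1] = !![1, x * r; 0, 1]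
        rw [mul_zero]
      show dc x y h (up r) ∈ E2 R
      rw [this]
      exact up_mem _
    · have : g = lo r := Subtype.ext h'
      subst this
      have : dc x y h (lo r) = lo (y * r) := by
        apply Subtype.ext
        show !![(1 : R), x * 0; y * r, 1] = !![1, 0; y * r, 1]
        rw [mul_zero]
      show dc x y h (lo r) ∈ E2 R
      rw [this]
      exact lo_mem _
  exact this hg

/-- The coefficientwise embedding of `SL_2(A)`. -/
noncomputable abbrev cst (s : SpecialLinearGroup (Fin 2) A) :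
    SpecialLinearGroup (Fin 2) A[T;T⁻¹] :=
  SpecialLinearGroup.map (C : A →+* A[T;T⁻¹]) s

theorem cst_lead (s : SpecialLinearGroup (Fin 2) A) :
    MLead (cst s : Matrix (Fin 2) (Fin 2) A[T;T⁻¹]) 0 (s : Matrix (Fin 2) (Fin 2) A) := by
  intro i j
  exact lead_C (s i j)

theorem cst_E2 [IsDomain A] {s : SpecialLinearGroup (Fin 2) A} :
    cst s ∈ E2 A[T;T⁻¹] ↔ s ∈ E2 A := by
  constructor
  · intro h
    rcases leading h with ⟨e, he, hM⟩ | ⟨m, hm, c, hc, e, he, e', he', hM⟩
    · have : s = e := by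
        apply Subtype.ext
        ext i j
        exact ((cst_lead s) i j).2.symm.trans (hM i j).2
      rwa [this]
    · exfalso
      apply mid_ne hc e e'
      ext i j
      exact (hM i j).2.symm.trans (((cst_lead s) i j).1 m (by exact_mod_cast hm))
  · exact map_E2 C

theorem exists_top {b : A[T;T⁻¹]} {k : ℤ} (h : b.coeff k ≠ 0) :
    ∃ n a, k ≤ n ∧ a ≠ 0 ∧ Lead b n a := by
  have hk : k ∈ b.coeff.support := Finsupp.mem_support_iff.mpr h
  have hne : b.coeff.support.Nonempty := ⟨k, hk⟩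
  refine ⟨b.coeff.support.max' hne, b.coeff (b.coeff.support.max' hne),
    Finset.le_max' _ _ hk, Finsupp.mem_support_iff.mp (Finset.max'_mem _ hne), ?_, rfl⟩
  intro m hm
  by_contra h'
  exact absurd (Finset.le_max' _ m (Finsupp.mem_support_iff.mpr h')) (not_le.mpr hm)

/-- The column criterion with no twist. -/
theorem column0 [IsDomain A] {g : SpecialLinearGroup (Fin 2) A[T;T⁻¹]}
    (hg : g ∈ E2 A[T;T⁻¹]) {n : ℤ} {x y : A} (hx : Lead (g 0 0) n x) (hy : Lead (g 1 0) n y) :
    ∃ e ∈ E2 A, ∃ c : A, x = c * e 0 0 ∧ y = c * e 1 0 := by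
  by_cases h0 : x = 0 ∧ y = 0
  · exact ⟨1, one_mem _, 0, by simp [h0.1], by simp [h0.2]⟩
  · obtain ⟨N1, hN1⟩ := exists_bound (g 0 1)
    obtain ⟨N2, hN2⟩ := exists_bound (g 1 1)
    let N : ℤ := 2 * N1 + 2 * N2 + |n| + 1
    have hNn : 0 < N + n := by
      have := neg_abs_le n
      omega
    have h2 : ∀ (f : A[T;T⁻¹]) (M : ℕ), (M ≤ N1 + N2) → (∀ m, 2 * (M : ℤ) < m → f.coeff m = 0) →
        Lead f (N + n) 0 := by
      intro f M hM hf
      have := neg_abs_le n
      exact ⟨fun m hm => hf m (by omega), hf _ (by omega)⟩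
    obtain ⟨G, hGd⟩ : ∃ G : SpecialLinearGroup (Fin 2) A[T;T⁻¹], G = g * up (T N) := ⟨_, rfl⟩
    have hG : G ∈ E2 A[T;T⁻¹] := by
      rw [hGd]
      exact mul_mem hg (up_mem _)
    have e00 : G 0 0 = g 0 0 := by
      rw [hGd, mul_apply2]
      show g 0 0 * 1 + g 0 1 * 0 = _
      rw [mul_one, mul_zero, add_zero]
    have e10 : G 1 0 = g 1 0 := by
      rw [hGd, mul_apply2]
      show g 1 0 * 1 + g 1 1 * 0 = _
      rw [mul_one, mul_zero, add_zero]
    have e01 : G 0 1 = T N * g 0 0 + g 0 1 := by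
      rw [hGd, mul_apply2]
      show g 0 0 * T N + g 0 1 * 1 = _
      rw [mul_one, mul_comm]
    have e11 : G 1 1 = T N * g 1 0 + g 1 1 := by
      rw [hGd, mul_apply2]
      show g 1 0 * T N + g 1 1 * 1 = _
      rw [mul_one, mul_comm]
    have hn' : n < N + n := by
      have := abs_nonneg n
      omega
    have hM : MLead (G : Matrix (Fin 2) (Fin 2) A[T;T⁻¹]) (N + n) !![0, x; 0, y] := by
      intro i j
      fin_cases i <;> fin_cases j
      · show Lead (G 0 0) (N + n) 0
        rw [e00]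
        exact hx.up hn'
      · show Lead (G 0 1) (N + n) x
        rw [e01]
        have := (hx.T_mul N).add (h2 _ N1 (by omega) hN1)
        rwa [add_zero] at this
      · show Lead (G 1 0) (N + n) 0
        rw [e10]
        exact hy.up hn'
      · show Lead (G 1 1) (N + n) y
        rw [e11]
        have := (hy.T_mul N).add (h2 _ N2 (by omega) hN2)
        rwa [add_zero] at this
    have hL : (!![0, x; 0, y] : Matrix (Fin 2) (Fin 2) A) ≠ 0 := by
      intro h
      apply h0
      exact ⟨congrFun (congrFun h 0) 1, congrFun (congrFun h 1) 1⟩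
    obtain ⟨c, hc, e, he, e', he', hLe⟩ := leading_pos hG hNn hL hM
    refine ⟨e, he, c * e' 1 1, ?_, ?_⟩
    · have := congrFun (congrFun hLe 0) 1
      rw [mid_apply] at this
      change x = c * (e 0 0 * e' 1 1) at this
      rw [this]
      ring
    · have := congrFun (congrFun hLe 1) 1
      rw [mid_apply] at this
      change y = c * (e 1 0 * e' 1 1) at this
      rw [this]
      ring

/-- The column criterion. -/
theorem column [IsDomain A] {g : SpecialLinearGroup (Fin 2) A[T;T⁻¹]}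
    (hg : g ∈ E2 A[T;T⁻¹]) {m n : ℤ} {x y : A} (hx : Lead (g 0 0) m x) (hy : Lead (g 1 0) n y) :
    ∃ e ∈ E2 A, ∃ c : A, x = c * e 0 0 ∧ y = c * e 1 0 := by
  have h1 : (T (n - m) : A[T;T⁻¹]) * T (m - n) = 1 := by
    rw [← T_add, show n - m + (m - n) = 0 by ring, T_zero]
  have h := dc_E2 (T (n - m)) (T (m - n)) h1 hg
  refine column0 h (n := m) ?_ ?_
  · exact hx
  · show Lead (T (m - n) * g 1 0) m y
    have := hy.T_mul (m - n)
    rwa [show m - n + n = m by ring] at this

end Pool.Agent.Helper74.LM
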