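import Mathlib
import Pool.Agent.Helper74.LM.Cor

namespace Pool.Agent.Helper74.LM

open LaurentPolynomial Matrix

variable {A : Type*} [CommRing A]

theorem coe_inv_mul {R : Type*} [CommRing R] (e : SpecialLinearGroup (Fin 2) R) :
    ((e⁻¹ : SpecialLinearGroup (Fin 2) R) : Matrix (Fin 2) (Fin 2) R) *
      (e : Matrix (Fin 2) (Fin 2) R) = 1 := by
  exact congrArg Subtype.val (inv_mul_cancel e)

theorem coe_mul_inv {R : Type*} [CommRing R] (e : SpecialLinearGroup (Fin 2) R) :
    (e : Matrix (Fin 2) (Fin 2) R) *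
      ((e⁻¹ : SpecialLinearGroup (Fin 2) R) : Matrix (Fin 2) (Fin 2) R) = 1 := by
  exact congrArg Subtype.val (mul_inv_cancel e)

theorem trans_alg [IsDomain A] {N : Matrix (Fin 2) (Fin 2) A} (hN : N * N = 0) {a c : A}
    (ha : a ≠ 0) {e e' : SpecialLinearGroup (Fin 2) A}
    (h : a • N = c • ((e : Matrix (Fin 2) (Fin 2) A) * E12 A * (e' : Matrix (Fin 2) (Fin 2) A))) :
    ∃ c : A, N = c • ((e : Matrix (Fin 2) (Fin 2) A) * E12 A *
      ((e⁻¹ : SpecialLinearGroup (Fin 2) A) : Matrix (Fin 2) (Fin 2) A)) := by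
  obtain ⟨E, hE⟩ : ∃ E : Matrix (Fin 2) (Fin 2) A, E = e := ⟨_, rfl⟩
  obtain ⟨F, hF⟩ : ∃ F : Matrix (Fin 2) (Fin 2) A,
    F = ((e⁻¹ : SpecialLinearGroup (Fin 2) A) : Matrix (Fin 2) (Fin 2) A) := ⟨_, rfl⟩
  have hFE : F * E = 1 := by rw [hE, hF]; exact coe_inv_mul e
  have hEF : E * F = 1 := by rw [hE, hF]; exact coe_mul_inv e
  rw [← hE] at h
  rw [← hE, ← hF]
  have h1 : a • (F * N) = c • (E12 A * (e' : Matrix (Fin 2) (Fin 2) A)) := by
    calc a • (F * N) = F * (a • N) := (Matrix.mul_smul _ _ _).symm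
      _ = c • (F * (E * E12 A * (e' : Matrix (Fin 2) (Fin 2) A))) := by
        rw [h, Matrix.mul_smul]
      _ = c • (E12 A * (e' : Matrix (Fin 2) (Fin 2) A)) := by
        rw [← Matrix.mul_assoc, ← Matrix.mul_assoc, hFE, Matrix.one_mul]
  have h2 : ∀ j, (F * N) 1 j = 0 := by
    intro j
    have := congrFun (congrFun h1 1) j
    rw [Matrix.smul_apply, Matrix.smul_apply, Matrix.mul_apply (M := E12 A), Fin.sum_univ_two]
      at this
    simp only [Matrix.cons_val', Matrix.cons_val_zero, Matrix.cons_val_one,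
      Matrix.of_apply, zero_mul, add_zero, smul_eq_mul, mul_zero] at this
    rcases mul_eq_zero.mp this with h3 | h3
    · exact absurd h3 ha
    · exact h3
  obtain ⟨M, hM⟩ : ∃ M : Matrix (Fin 2) (Fin 2) A, M = F * N * E := ⟨_, rfl⟩
  have hM1 : ∀ j, M 1 j = 0 := by
    intro j
    rw [hM, Matrix.mul_apply, Fin.sum_univ_two, h2, h2, zero_mul, zero_mul, add_zero]
  have hMM : M * M = 0 := by
    have : M * M = F * (N * N) * E := by
      rw [hM]
      calc F * N * E * (F * N * E) = F * N * (E * F) * N * E := by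
            simp only [Matrix.mul_assoc]
        _ = F * (N * N) * E := by
            rw [hEF, Matrix.mul_one]
            simp only [Matrix.mul_assoc]
    rw [this, hN, Matrix.mul_zero, Matrix.zero_mul]
  have hM0 : M 0 0 = 0 := by
    have := congrFun (congrFun hMM 0) 0
    rw [Matrix.mul_apply, Fin.sum_univ_two, hM1, mul_zero, add_zero, Matrix.zero_apply] at this
    exact mul_self_eq_zero.mp this
  have hMe : M = M 0 1 • E12 A := by
    ext i j
    fin_cases i <;> fin_cases j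
    · simpa using hM0
    · simp
    · simpa using hM1 0
    · simpa using hM1 1
  refine ⟨M 0 1, ?_⟩
  have : N = E * M * F := by
    rw [hM]
    calc N = (E * F) * N * (E * F) := by rw [hEF, Matrix.one_mul, Matrix.mul_one]
      _ = E * (F * N * E) * F := by simp only [Matrix.mul_assoc]
  rw [← Matrix.smul_mul, ← Matrix.mul_smul, ← hMe]
  exact this

theorem trans_pos [IsDomain A] {N : Matrix (Fin 2) (Fin 2) A} (hN : N * N = 0)
    {b : A[T;T⁻¹]} {k : ℤ} (hk : 0 < k) (hb : b.coeff k ≠ 0)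
    {g : SpecialLinearGroup (Fin 2) A[T;T⁻¹]} (hg : g ∈ E2 A[T;T⁻¹])
    (hgN : ∀ i j, g i j = (1 : Matrix (Fin 2) (Fin 2) A[T;T⁻¹]) i j + b * C (N i j)) :
    ∃ c : A, ∃ e ∈ E2 A, N = c • ((e : Matrix (Fin 2) (Fin 2) A) * E12 A *
      ((e⁻¹ : SpecialLinearGroup (Fin 2) A) : Matrix (Fin 2) (Fin 2) A)) := by
  by_cases h0 : N = 0
  · exact ⟨0, 1, one_mem _, by rw [h0, zero_smul]⟩
  · obtain ⟨n, a, hkn, ha, hn⟩ := exists_top hb
    have hM : MLead (g : Matrix (Fin 2) (Fin 2) A[T;T⁻¹]) n (a • N) := by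
      intro i j
      show Lead (g i j) n (a * N i j)
      rw [hgN]
      have h1 : Lead ((1 : Matrix (Fin 2) (Fin 2) A[T;T⁻¹]) i j) n 0 := by
        by_cases hij : i = j
        · subst hij
          rw [Matrix.one_apply_eq]
          exact lead_one.up (by omega)
        · rw [Matrix.one_apply_ne hij]
          exact lead_zero n
      have h2 := hn.mul (lead_C (N i j))
      rw [add_zero] at h2
      have := h1.add h2
      rwa [zero_add] at this
    have hL : a • N ≠ 0 := smul_ne_zero ha h0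
    obtain ⟨c, hc, e, he, e', he', h⟩ := leading_pos hg (by omega) hL hM
    obtain ⟨c', hc'⟩ := trans_alg hN ha h
    exact ⟨c', e, he, hc'⟩

/-- Tameness of transvections. -/
theorem transvection [IsDomain A] {N : Matrix (Fin 2) (Fin 2) A} (hN : N * N = 0)
    {b : A[T;T⁻¹]} {k : ℤ} (hk : k ≠ 0) (hb : b.coeff k ≠ 0)
    {g : SpecialLinearGroup (Fin 2) A[T;T⁻¹]}
    (hgN : ∀ i j, g i j = (1 : Matrix (Fin 2) (Fin 2) A[T;T⁻¹]) i j + b * C (N i j)) :
    g ∈ E2 A[T;T⁻¹] ↔ ∃ c : A, ∃ e ∈ E2 A, N = c • ((e : Matrix (Fin 2) (Fin 2) A) * E12 A *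
      ((e⁻¹ : SpecialLinearGroup (Fin 2) A) : Matrix (Fin 2) (Fin 2) A)) := by
  constructor
  · intro hg
    rcases lt_or_gt_of_ne hk with h | h
    · have h1 := map_E2 ((invert : A[T;T⁻¹] ≃ₐ[A] A[T;T⁻¹]) : A[T;T⁻¹] →+* A[T;T⁻¹]) hg
      refine trans_pos hN (b := invert b) (k := -k) (by omega) ?_ h1 ?_
      · rw [invert_apply, neg_neg]
        exact hb
      · intro i j
        show (invert : A[T;T⁻¹] ≃ₐ[A] A[T;T⁻¹]) (g i j) = _
        rw [hgN, map_add, map_mul, invert_C]
        congr 1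
        by_cases hij : i = j
        · subst hij
          rw [Matrix.one_apply_eq, map_one]
        · rw [Matrix.one_apply_ne hij, map_zero]
    · exact trans_pos hN h hb hg hgN
  · rintro ⟨c, e, he, hNe⟩
    have hmain : g = cst e * up (b * C c) * cst e⁻¹ := by
      apply Subtype.ext
      ext1 i j
      have h1 : g i j = _ := hgN i j
      refine h1.trans ?_
      show _ = (cst e * up (b * C c) * cst e⁻¹) i j
      rw [mul_apply2, mul_apply2, mul_apply2]
      show _ = (C (e i 0) * 1 + C (e i 1) * 0) * C (e⁻¹ 0 j) +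
        (C (e i 0) * (b * C c) + C (e i 1) * 1) * C (e⁻¹ 1 j)
      have h2 : N i j = c * (e i 0 * e⁻¹ 1 j) := by
        rw [hNe, mid_apply]
      have h3 : (C (e i 0) : A[T;T⁻¹]) * C (e⁻¹ 0 j) + C (e i 1) * C (e⁻¹ 1 j) =
          (1 : Matrix (Fin 2) (Fin 2) A[T;T⁻¹]) i j := by
        rw [← map_mul, ← map_mul, ← map_add, ← mul_apply2, mul_inv_cancel]
        show C ((1 : Matrix (Fin 2) (Fin 2) A) i j) = _
        by_cases hij : i = j
        · subst hij
          rw [Matrix.one_apply_eq, Matrix.one_apply_eq, map_one]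
        · rw [Matrix.one_apply_ne hij, Matrix.one_apply_ne hij, map_zero]
      rw [h2, ← h3, map_mul, map_mul]
      ring
    rw [hmain]
    exact mul_mem (mul_mem (map_E2 C he) (up_mem _)) (map_E2 C (inv_mem he))

end Pool.Agent.Helper74.LM
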