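import Mathlib
import Pool.Agent.Helper74.LM.Tran

namespace Pool.Agent.Helper74.LM

open LaurentPolynomial Matrix

/-- The product `s_0 E_12(f_1) s_1 ⋯ E_12(f_n) s_n`, where `l = [(f_1,s_1),…,(f_n,s_n)]` and the
matrices `s_i` over `A` are moved to `R` by `ι`. -/
def word {A R : Type*} [CommRing A] [CommRing R] (ι : A →+* R) :
    SpecialLinearGroup (Fin 2) A → List (R × SpecialLinearGroup (Fin 2) A) →
      SpecialLinearGroup (Fin 2) R
  | s, [] => SpecialLinearGroup.map ι s
  | s, (f, s') :: l => SpecialLinearGroup.map ι s * up f * word ι s' l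

variable {A : Type*} [CommRing A]

theorem word_lead [IsDomain A] (l : List (A[T;T⁻¹] × SpecialLinearGroup (Fin 2) A)) :
    ∀ s : SpecialLinearGroup (Fin 2) A, l ≠ [] → (∀ p ∈ l, ∃ k, 0 < k ∧ p.1.coeff k ≠ 0) →
    (∀ p ∈ l.dropLast, p.2 1 0 ≠ 0) → ∃ n : ℤ, 0 < n ∧ ∃ c : A, c ≠ 0 ∧
      ∃ s' : SpecialLinearGroup (Fin 2) A,
      MLead (word (C : A →+* A[T;T⁻¹]) s l : Matrix (Fin 2) (Fin 2) A[T;T⁻¹]) n
        (c • ((s : Matrix (Fin 2) (Fin 2) A) * E12 A * (s' : Matrix (Fin 2) (Fin 2) A))) := by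
  induction l with
  | nil => intro s h; exact absurd rfl h
  | cons p l ih =>
    obtain ⟨f, s1⟩ := p
    intro s _ hpos hred
    obtain ⟨k, hk, hfk⟩ := hpos (f, s1) (by simp)
    obtain ⟨n, a, hkn, ha, hn⟩ := exists_top hfk
    have hup : MLead (up f : Matrix (Fin 2) (Fin 2) A[T;T⁻¹]) n (a • E12 A) := by
      intro i j
      fin_cases i <;> fin_cases j
      · show Lead (1 : A[T;T⁻¹]) n (a * 0)
        rw [mul_zero]
        exact lead_one.up (by omega)
      · show Lead f n (a * 1)
        rw [mul_one]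
        exact hn
      · show Lead (0 : A[T;T⁻¹]) n (a * 0)
        rw [mul_zero]
        exact lead_zero n
      · show Lead (1 : A[T;T⁻¹]) n (a * 0)
        rw [mul_zero]
        exact lead_one.up (by omega)
    have h1 : MLead ((cst s * up f : SpecialLinearGroup (Fin 2) A[T;T⁻¹]) :
        Matrix (Fin 2) (Fin 2) A[T;T⁻¹]) (0 + n)
        ((s : Matrix (Fin 2) (Fin 2) A) * (a • E12 A)) := (cst_lead s).mul hup
    rcases List.eq_nil_or_concat l with hl | hl
    · subst hl
      have h2 := h1.mul (cst_lead s1)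
      refine ⟨0 + n + 0, by omega, a, ha, s1, ?_⟩
      rw [Matrix.mul_smul, Matrix.smul_mul] at h2
      exact h2
    · have hl' : l ≠ [] := by
        obtain ⟨l', b, h⟩ := hl
        rw [h]
        simp
      have hd : ((f, s1) :: l).dropLast = (f, s1) :: l.dropLast := by
        cases l with
        | nil => exact absurd rfl hl'
        | cons q l => rfl
      rw [hd] at hred
      have hs1 : s1 1 0 ≠ 0 := hred (f, s1) (by simp)
      obtain ⟨m, hm, c, hc, s', hs'⟩ := ih s1 hl' (fun p hp => hpos p (by simp [hp]))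
        (fun p hp => hred p (by simp [hp]))
      have h2 := h1.mul hs'
      refine ⟨0 + n + m, by omega, a * (c * s1 1 0), mul_ne_zero ha (mul_ne_zero hc hs1), s', ?_⟩
      have h3 : ((s : Matrix (Fin 2) (Fin 2) A) * (a • E12 A)) *
          (c • ((s1 : Matrix (Fin 2) (Fin 2) A) * E12 A * (s' : Matrix (Fin 2) (Fin 2) A))) =
          (a * (c * s1 1 0)) • ((s : Matrix (Fin 2) (Fin 2) A) * E12 A *
            (s' : Matrix (Fin 2) (Fin 2) A)) := by
        ext i j
        rw [Matrix.mul_apply, Fin.sum_univ_two, mid_apply, mid_apply, mid_apply,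
          Matrix.mul_smul, Matrix.smul_apply, Matrix.smul_apply, Matrix.mul_apply,
          Matrix.mul_apply, Fin.sum_univ_two, Fin.sum_univ_two]
        simp only [Matrix.of_apply, Matrix.cons_val', Matrix.cons_val_zero, Matrix.cons_val_one,
          mul_zero, mul_one, smul_eq_mul, zero_mul, add_zero, zero_add]
        ring
      rw [h3] at h2
      exact h2

/-- Tameness of reduced words. -/
theorem word_tame [IsDomain A] (l : List (A[T;T⁻¹] × SpecialLinearGroup (Fin 2) A)) :
    ∀ s : SpecialLinearGroup (Fin 2) A, (∀ p ∈ l, ∃ k, 0 < k ∧ p.1.coeff k ≠ 0) →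
    (∀ p ∈ l.dropLast, p.2 1 0 ≠ 0) →
    (word (C : A →+* A[T;T⁻¹]) s l ∈ E2 A[T;T⁻¹] ↔ s ∈ E2 A ∧ ∀ p ∈ l, p.2 ∈ E2 A) := by
  induction l with
  | nil =>
    intro s _ _
    show cst s ∈ _ ↔ _
    rw [cst_E2]
    simp
  | cons p l ih =>
    obtain ⟨f, s1⟩ := p
    intro s hpos hred
    have hred' : ∀ p ∈ l.dropLast, p.2 1 0 ≠ 0 := by
      intro p hp
      apply hred p
      cases l with
      | nil => simp at hp
      | cons q l =>
        rw [List.dropLast_cons_cons]
        exact List.mem_cons_of_mem _ hp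
    have hpos' : ∀ p ∈ l, ∃ k, 0 < k ∧ p.1.coeff k ≠ 0 := fun p hp => hpos p (by simp [hp])
    have hI := ih s1 hpos' hred'
    constructor
    · intro h
      obtain ⟨n, hn, c, hc, s', hs'⟩ := word_lead ((f, s1) :: l) s (by simp) hpos hred
      obtain ⟨c', hc', e, he, e', he', heq⟩ := leading_pos h hn (mid_ne hc s s') hs'
      have hs : s ∈ E2 A := dir hc he heq
      have h1 : word (C : A →+* A[T;T⁻¹]) s1 l ∈ E2 A[T;T⁻¹] := by
        have h2 : word (C : A →+* A[T;T⁻¹]) s1 l =
            (cst s * up f)⁻¹ * word (C : A →+* A[T;T⁻¹]) s ((f, s1) :: l) := by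
          show _ = (cst s * up f)⁻¹ * (cst s * up f * word (C : A →+* A[T;T⁻¹]) s1 l)
          rw [inv_mul_cancel_left]
        rw [h2]
        exact mul_mem (inv_mem (mul_mem (map_E2 C hs) (up_mem _))) h
      obtain ⟨h3, h4⟩ := hI.mp h1
      refine ⟨hs, ?_⟩
      intro p hp
      rcases List.mem_cons.mp hp with h5 | h5
      · rw [h5]
        exact h3
      · exact h4 p h5
    · rintro ⟨h1, h2⟩
      show cst s * up f * word (C : A →+* A[T;T⁻¹]) s1 l ∈ _
      exact mul_mem (mul_mem (map_E2 C h1) (up_mem _))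
        (hI.mpr ⟨h2 (f, s1) (by simp), fun p hp => h2 p (by simp [hp])⟩)

theorem word_E2 {A R : Type*} [CommRing A] [CommRing R] (ι : A →+* R)
    (l : List (R × SpecialLinearGroup (Fin 2) A)) : ∀ s : SpecialLinearGroup (Fin 2) A,
    s ∈ E2 A → (∀ p ∈ l, p.2 ∈ E2 A) → word ι s l ∈ E2 R := by
  induction l with
  | nil =>
    intro s hs _
    exact map_E2 ι hs
  | cons p l ih =>
    obtain ⟨f, s1⟩ := p
    intro s hs hl
    show SpecialLinearGroup.map ι s * up f * word ι s1 l ∈ _
    exact mul_mem (mul_mem (map_E2 ι hs) (up_mem _))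
      (ih s1 (hl (f, s1) (by simp)) fun p hp => hl p (by simp [hp]))

theorem word_map {A R S : Type*} [CommRing A] [CommRing R] [CommRing S] (ι : A →+* R)
    (φ : R →+* S) (l : List (R × SpecialLinearGroup (Fin 2) A)) :
    ∀ s : SpecialLinearGroup (Fin 2) A, SpecialLinearGroup.map φ (word ι s l) =
      word (φ.comp ι) s (l.map fun p => (φ p.1, p.2)) := by
  induction l with
  | nil =>
    intro s
    show SpecialLinearGroup.map φ (SpecialLinearGroup.map ι s) =
      SpecialLinearGroup.map (φ.comp ι) s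
    apply Subtype.ext
    ext i j
    rfl
  | cons p l ih =>
    obtain ⟨f, s1⟩ := p
    intro s
    show SpecialLinearGroup.map φ (SpecialLinearGroup.map ι s * up f * word ι s1 l) =
      SpecialLinearGroup.map (φ.comp ι) s * up (φ f) * word (φ.comp ι) s1 _
    rw [map_mul, map_mul, ih]
    congr 2
    apply Subtype.ext
    ext i j
    fin_cases i <;> fin_cases j <;> simp [up]

end Pool.Agent.Helper74.LM
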