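import Mathlib
import Pool.Agent.Helper74.LM.Word

namespace Pool.Agent.Helper74.LM

open Polynomial Matrix

variable {A : Type*} [CommRing A]

/-- Good words: all polynomials are nonconstant and the middle letters are not upper
triangular. -/
def Good (l : List (A[X] × SpecialLinearGroup (Fin 2) A)) : Prop :=
  (∀ p ∈ l, 0 < p.1.natDegree) ∧ ∀ p ∈ l.dropLast, p.2 1 0 ≠ 0

theorem good_tail {p : A[X] × SpecialLinearGroup (Fin 2) A}
    {l : List (A[X] × SpecialLinearGroup (Fin 2) A)} (h : Good (p :: l)) : Good l := by
  refine ⟨fun q hq => h.1 q (by simp [hq]), fun q hq => h.2 q ?_⟩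
  cases l with
  | nil => simp at hq
  | cons r l =>
    rw [List.dropLast_cons_cons]
    exact List.mem_cons_of_mem _ hq

theorem map_up_C (a : A) :
    SpecialLinearGroup.map (Polynomial.C : A →+* A[X]) (up a) = up (Polynomial.C a) := by
  apply Subtype.ext
  ext i j : 2
  fin_cases i <;> fin_cases j <;> simp [up]

theorem word_left (s' : SpecialLinearGroup (Fin 2) A) (s : SpecialLinearGroup (Fin 2) A)
    (l : List (A[X] × SpecialLinearGroup (Fin 2) A)) :
    SpecialLinearGroup.map (Polynomial.C : A →+* A[X]) s' * word Polynomial.C s l =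
      word Polynomial.C (s' * s) l := by
  cases l with
  | nil =>
    show SpecialLinearGroup.map (Polynomial.C : A →+* A[X]) s' *
      SpecialLinearGroup.map (Polynomial.C : A →+* A[X]) s = _
    rw [← map_mul]
    rfl
  | cons p l =>
    obtain ⟨f, s1⟩ := p
    show SpecialLinearGroup.map (Polynomial.C : A →+* A[X]) s' *
      (SpecialLinearGroup.map (Polynomial.C : A →+* A[X]) s * up f * word Polynomial.C s1 l) =
      SpecialLinearGroup.map (Polynomial.C : A →+* A[X]) (s' * s) * up f * word Polynomial.C s1 l
    rw [map_mul]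
    simp only [mul_assoc]

/-- Moving `E_12(f)` over an upper triangular matrix. -/
theorem up_tri (f : A[X]) (s : SpecialLinearGroup (Fin 2) A) (hs : s 1 0 = 0) :
    up f * SpecialLinearGroup.map (Polynomial.C : A →+* A[X]) s =
      SpecialLinearGroup.map (Polynomial.C : A →+* A[X]) s *
        up (Polynomial.C (s 1 1 * s 1 1) * f) := by
  have hd : s 0 0 * s 1 1 = 1 := by
    have := det_eq s
    rwa [hs, mul_zero, sub_zero] at this
  have hd' : (Polynomial.C (s 0 0) : A[X]) * Polynomial.C (s 1 1) = 1 := by
    rw [← map_mul, hd, map_one]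
  have hs' : (Polynomial.C (s 1 0) : A[X]) = 0 := by rw [hs, map_zero]
  apply Subtype.ext
  ext1 i j
  show (up f * SpecialLinearGroup.map (Polynomial.C : A →+* A[X]) s) i j =
    (SpecialLinearGroup.map (Polynomial.C : A →+* A[X]) s *
        up (Polynomial.C (s 1 1 * s 1 1) * f)) i j
  rw [mul_apply2, mul_apply2]
  fin_cases i <;> fin_cases j
  · show 1 * Polynomial.C (s 0 0) + f * Polynomial.C (s 1 0) =
      Polynomial.C (s 0 0) * 1 + Polynomial.C (s 0 1) * 0
    rw [hs']
    ring
  · show 1 * Polynomial.C (s 0 1) + f * Polynomial.C (s 1 1) =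
      Polynomial.C (s 0 0) * (Polynomial.C (s 1 1 * s 1 1) * f) + Polynomial.C (s 0 1) * 1
    rw [map_mul]
    linear_combination (-(Polynomial.C (s 1 1) * f)) * hd'
  · show 0 * Polynomial.C (s 0 0) + 1 * Polynomial.C (s 1 0) =
      Polynomial.C (s 1 0) * 1 + Polynomial.C (s 1 1) * 0
    ring
  · show 0 * Polynomial.C (s 0 1) + 1 * Polynomial.C (s 1 1) =
      Polynomial.C (s 1 0) * (Polynomial.C (s 1 1 * s 1 1) * f) + Polynomial.C (s 1 1) * 1
    rw [hs']
    ring

theorem up_word (f : A[X]) (s : SpecialLinearGroup (Fin 2) A)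
    (l : List (A[X] × SpecialLinearGroup (Fin 2) A)) (hl : Good l) :
    ∃ s' l', Good l' ∧ up f * word Polynomial.C s l = word Polynomial.C s' l' := by
  rcases Nat.eq_zero_or_pos f.natDegree with h0 | h0
  · refine ⟨up (f.coeff 0) * s, l, hl, ?_⟩
    rw [← word_left, map_up_C, ← Polynomial.eq_C_of_natDegree_eq_zero h0]
  · by_cases hc : l = [] ∨ s 1 0 ≠ 0
    · refine ⟨1, (f, s) :: l, ⟨?_, ?_⟩, ?_⟩
      · intro p hp
        rcases List.mem_cons.mp hp with h | h
        · rw [h]
          exact h0
        · exact hl.1 p h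
      · intro p hp
        cases l with
        | nil => simp at hp
        | cons q l =>
          rw [List.dropLast_cons_cons] at hp
          rcases List.mem_cons.mp hp with h | h
          · rw [h]
            rcases hc with h1 | h1
            · simp at h1
            · exact h1
          · exact hl.2 p h
      · show _ = SpecialLinearGroup.map (Polynomial.C : A →+* A[X]) 1 * up f *
          word Polynomial.C s l
        rw [map_one, one_mul]
    · push Not at hc
      obtain ⟨hne, hs⟩ := hc
      cases l with
      | nil => exact absurd rfl hne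
      | cons p l =>
        obtain ⟨f1, s1⟩ := p
        have e1 : up f * word Polynomial.C s ((f1, s1) :: l) =
            SpecialLinearGroup.map (Polynomial.C : A →+* A[X]) s *
              up (Polynomial.C (s 1 1 * s 1 1) * f + f1) * word Polynomial.C s1 l := by
          show up f * (SpecialLinearGroup.map (Polynomial.C : A →+* A[X]) s * up f1 *
            word Polynomial.C s1 l) = _
          rw [← up_mul, ← mul_assoc, ← mul_assoc, up_tri f s hs]
          simp only [mul_assoc]
        rcases Nat.eq_zero_or_pos (Polynomial.C (s 1 1 * s 1 1) * f + f1).natDegree with h1 | h1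
        · refine ⟨s * (up ((Polynomial.C (s 1 1 * s 1 1) * f + f1).coeff 0) * s1), l,
            good_tail hl, ?_⟩
          rw [e1, ← word_left, ← word_left, map_up_C, ← Polynomial.eq_C_of_natDegree_eq_zero h1,
            mul_assoc]
        · refine ⟨s, (Polynomial.C (s 1 1 * s 1 1) * f + f1, s1) :: l, ⟨?_, ?_⟩, e1⟩
          · intro p hp
            rcases List.mem_cons.mp hp with h | h
            · rw [h]
              exact h1
            · exact hl.1 p (List.mem_cons_of_mem _ h)
          · intro p hp
            have h2 := hl.2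
            cases l with
            | nil => simp at hp
            | cons q l =>
              rw [List.dropLast_cons_cons] at hp h2
              rcases List.mem_cons.mp hp with h | h
              · rw [h]
                exact h2 (f1, s1) (by simp)
              · exact h2 p (List.mem_cons_of_mem _ h)

/-- Normal forms in the group generated by `SL_2(A)` and `E_2(A[X])`. -/
theorem exists_word {g : SpecialLinearGroup (Fin 2) A[X]}
    (hg : g ∈ (SpecialLinearGroup.map (n := Fin 2) (Polynomial.C : A →+* A[X])).range ⊔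
      E2 A[X]) : ∃ s l, Good l ∧ g = word Polynomial.C s l := by
  have hle : (SpecialLinearGroup.map (n := Fin 2) (Polynomial.C : A →+* A[X])).range ⊔ E2 A[X] ≤
      Subgroup.closure {g | (∃ s, g = SpecialLinearGroup.map (Polynomial.C : A →+* A[X]) s) ∨
        ∃ f, g = up f} := by
    rw [sup_le_iff]
    constructor
    · rintro _ ⟨s, rfl⟩
      exact Subgroup.subset_closure (Or.inl ⟨s, rfl⟩)
    · rw [E2, Subgroup.closure_le]
      rintro g ⟨r, h | h⟩
      · exact Subgroup.subset_closure (Or.inr ⟨r, Subtype.ext h⟩)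
      · have : g = lo r := Subtype.ext h
        rw [this, lo_eq]
        have hw : (wy : SpecialLinearGroup (Fin 2) A[X]) =
            SpecialLinearGroup.map (Polynomial.C : A →+* A[X]) wy := by
          apply Subtype.ext
          ext i j : 2
          fin_cases i <;> fin_cases j <;> simp [wy]
        have hw' : (wy : SpecialLinearGroup (Fin 2) A[X]) ∈ Subgroup.closure
            {g | (∃ s, g = SpecialLinearGroup.map (Polynomial.C : A →+* A[X]) s) ∨
              ∃ f, g = up f} := Subgroup.subset_closure (Or.inl ⟨wy, hw⟩)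
        exact mul_mem (mul_mem (inv_mem hw') (Subgroup.subset_closure (Or.inr ⟨_, rfl⟩))) hw'
  have hg' := hle hg
  clear hg
  have key : ∀ x y : SpecialLinearGroup (Fin 2) A[X],
      ((∃ s, x = SpecialLinearGroup.map (Polynomial.C : A →+* A[X]) s) ∨ ∃ f, x = up f) →
      (∃ s l, Good l ∧ y = word Polynomial.C s l) →
      ∃ s l, Good l ∧ x * y = word Polynomial.C s l := by
    rintro x y hx ⟨s, l, hl, rfl⟩
    rcases hx with ⟨s', rfl⟩ | ⟨f, rfl⟩
    · exact ⟨s' * s, l, hl, word_left s' s l⟩
    · exact up_word f s l hl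
  induction hg' using Subgroup.closure_induction_left with
  | one => exact ⟨1, [], ⟨by simp, by simp⟩, by
      show 1 = SpecialLinearGroup.map (Polynomial.C : A →+* A[X]) 1
      rw [map_one]⟩
  | mul_left x hx y hy ih => exact key x y hx ih
  | inv_mul_cancel x hx y hy ih =>
    refine key x⁻¹ y ?_ ih
    rcases hx with ⟨s, rfl⟩ | ⟨f, rfl⟩
    · exact Or.inl ⟨s⁻¹, by rw [map_inv]⟩
    · exact Or.inr ⟨-f, up_inv f⟩

/-- On the group generated by `SL_2(A)` and `E_2(A[X])`, tameness over `A[X]` and over the
Laurent polynomial ring agree. -/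
theorem relative [IsDomain A] {g : SpecialLinearGroup (Fin 2) A[X]}
    (hg : g ∈ (SpecialLinearGroup.map (n := Fin 2) (Polynomial.C : A →+* A[X])).range ⊔
      E2 A[X]) (h : SpecialLinearGroup.map (Polynomial.toLaurent : A[X] →+* _) g ∈
      E2 (LaurentPolynomial A)) : g ∈ E2 A[X] := by
  obtain ⟨s, l, hl, rfl⟩ := exists_word hg
  rw [word_map] at h
  have hC : (Polynomial.toLaurent : A[X] →+* LaurentPolynomial A).comp Polynomial.C =
      (LaurentPolynomial.C : A →+* LaurentPolynomial A) := by
    ext1 a
    exact Polynomial.toLaurent_C a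
  rw [hC] at h
  have hpos : ∀ p ∈ l.map (fun p : A[X] × SpecialLinearGroup (Fin 2) A =>
      (Polynomial.toLaurent p.1, p.2)), ∃ k, 0 < k ∧ p.1.coeff k ≠ 0 := by
    intro p hp
    obtain ⟨q, hq, rfl⟩ := List.mem_map.mp hp
    refine ⟨q.1.natDegree, by exact_mod_cast hl.1 q hq, ?_⟩
    have h3 : (Polynomial.toLaurent q.1).coeff (q.1.natDegree : ℤ) = q.1.coeff q.1.natDegree := by
      rw [LaurentPolynomial.coeff_toLaurent]
      exact Finsupp.mapDomain_apply Nat.castEmbedding.injective _ _
    show (Polynomial.toLaurent q.1).coeff (q.1.natDegree : ℤ) ≠ 0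
    rw [h3]
    have : q.1 ≠ 0 := by
      intro h0
      have := hl.1 q hq
      rw [h0, Polynomial.natDegree_zero] at this
      exact lt_irrefl 0 this
    exact Polynomial.leadingCoeff_ne_zero.mpr this
  have hred : ∀ p ∈ (l.map (fun p : A[X] × SpecialLinearGroup (Fin 2) A =>
      (Polynomial.toLaurent p.1, p.2))).dropLast, p.2 1 0 ≠ 0 := by
    intro p hp
    rw [← List.map_dropLast] at hp
    obtain ⟨q, hq, rfl⟩ := List.mem_map.mp hp
    exact hl.2 q hq
  obtain ⟨h1, h2⟩ := (word_tame _ s hpos hred).mp h
  refine word_E2 _ l s h1 fun p hp => ?_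
  exact h2 (Polynomial.toLaurent p.1, p.2) (List.mem_map.mpr ⟨p, hp, rfl⟩)

end Pool.Agent.Helper74.LM
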